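import Mathlib

/-!
# Coordinates in a ring that is free of finite rank over the integers
-/

set_option autoImplicit false

open Finset Module

namespace Pool.Agent.W964.PiAdic

variable {R : Type*} [CommRing R] {d : ℕ} (b : Basis (Fin d) ℤ R)

/-- The maximum of the absolute values of the coordinates. -/
noncomputable def nn (x : R) : ℕ := univ.sup (fun i : Fin d => (b.repr x i).natAbs)

theorem nn_le_iff {x : R} {k : ℕ} : nn b x ≤ k ↔ ∀ i, (b.repr x i).natAbs ≤ k := by
  simp [nn, Finset.sup_le_iff]

theorem natAbs_repr_le (x : R) (i : Fin d) : (b.repr x i).natAbs ≤ nn b x :=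
  (nn_le_iff b).1 le_rfl i

theorem nn_zero : nn b 0 = 0 := by
  simp [nn]

theorem nn_eq_zero {x : R} : nn b x = 0 ↔ x = 0 := by
  constructor
  · intro h
    apply b.repr.injective
    ext i
    have := natAbs_repr_le b x i
    rw [h] at this
    simpa using this
  · rintro rfl
    exact nn_zero b

theorem nn_pos {x : R} (hx : x ≠ 0) : 0 < nn b x := by
  rw [Nat.pos_iff_ne_zero]
  exact fun h => hx ((nn_eq_zero b).1 h)

theorem nn_neg (x : R) : nn b (-x) = nn b x := by
  simp [nn]

theorem nn_add_le (x y : R) : nn b (x + y) ≤ nn b x + nn b y := by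
  rw [nn_le_iff]
  intro i
  rw [map_add, Finsupp.add_apply]
  exact (Int.natAbs_add_le _ _).trans (add_le_add (natAbs_repr_le b x i) (natAbs_repr_le b y i))

theorem nn_sub_le (x y : R) : nn b (x - y) ≤ nn b x + nn b y := by
  rw [sub_eq_add_neg]
  exact (nn_add_le b _ _).trans (by rw [nn_neg])

theorem nn_sum_le {ι : Type*} (s : Finset ι) (f : ι → R) :
    nn b (∑ i ∈ s, f i) ≤ ∑ i ∈ s, nn b (f i) := by
  classical
  induction s using Finset.induction_on with
  | empty => simp [nn_zero]
  | insert a s ha ih =>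
    rw [sum_insert ha, sum_insert ha]
    exact (nn_add_le b _ _).trans (add_le_add_right ih _)

theorem nn_zsmul (k : ℤ) (x : R) : nn b (k • x) = k.natAbs * nn b x := by
  apply le_antisymm
  · rw [nn_le_iff]
    intro i
    rw [map_zsmul, Finsupp.smul_apply, smul_eq_mul, Int.natAbs_mul]
    exact Nat.mul_le_mul_left _ (natAbs_repr_le b x i)
  · rcases Nat.eq_zero_or_pos d with h | h
    · subst h
      have : nn b x = 0 := by simp [nn]
      rw [this, mul_zero]
      exact Nat.zero_le _
    · have : Nonempty (Fin d) := ⟨⟨0, h⟩⟩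
      obtain ⟨i, -, hi⟩ := exists_mem_eq_sup (univ : Finset (Fin d)) univ_nonempty
        (fun i : Fin d => (b.repr x i).natAbs)
      have h1 := natAbs_repr_le b (k • x) i
      rw [map_zsmul, Finsupp.smul_apply, smul_eq_mul, Int.natAbs_mul] at h1
      have h2 : nn b x = (b.repr x i).natAbs := hi
      rwa [h2]

/-- A constant `C` with `nn (x y) ≤ C nn x nn y`. -/
noncomputable def mulC : ℕ := ∑ i : Fin d, ∑ j : Fin d, nn b (b i * b j) + 1

theorem mulC_pos : 0 < mulC b := Nat.succ_pos _

theorem nn_mul_le (x y : R) : nn b (x * y) ≤ mulC b * nn b x * nn b y := by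
  have h1 : x * y = ∑ i : Fin d, ∑ j : Fin d, (b.repr x i * b.repr y j) • (b i * b j) := by
    conv_lhs => rw [← b.sum_repr x, ← b.sum_repr y]
    rw [sum_mul_sum]
    apply sum_congr rfl
    intro i _
    apply sum_congr rfl
    intro j _
    rw [smul_mul_smul_comm]
  rw [h1]
  calc nn b (∑ i : Fin d, ∑ j : Fin d, (b.repr x i * b.repr y j) • (b i * b j))
      ≤ ∑ i : Fin d, ∑ j : Fin d, nn b ((b.repr x i * b.repr y j) • (b i * b j)) :=
        (nn_sum_le b _ _).trans (sum_le_sum fun i _ => nn_sum_le b _ _)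
    _ ≤ ∑ i : Fin d, ∑ j : Fin d, nn b (b i * b j) * (nn b x * nn b y) := by
        apply sum_le_sum
        intro i _
        apply sum_le_sum
        intro j _
        rw [nn_zsmul, Int.natAbs_mul, mul_comm]
        exact Nat.mul_le_mul_left _
          (Nat.mul_le_mul (natAbs_repr_le b x i) (natAbs_repr_le b y j))
    _ = (∑ i : Fin d, ∑ j : Fin d, nn b (b i * b j)) * (nn b x * nn b y) := by
        rw [sum_mul]
        apply sum_congr rfl
        intro i _
        rw [sum_mul]
    _ ≤ mulC b * nn b x * nn b y := by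
        rw [mulC, mul_assoc]
        exact Nat.mul_le_mul_right _ (Nat.le_succ _)

/-- The elements with all coordinates of absolute value at most `X`. -/
noncomputable def box (X : ℕ) : Finset R :=
  (Fintype.piFinset fun _ : Fin d => Icc (-(X : ℤ)) X).map b.equivFun.symm.toEquiv.toEmbedding

theorem mem_box {X : ℕ} {x : R} : x ∈ box b X ↔ nn b x ≤ X := by
  rw [box, mem_map, nn_le_iff]
  constructor
  · rintro ⟨c, hc, rfl⟩ i
    have h1 := mem_Icc.1 (Fintype.mem_piFinset.1 hc i)
    have h2 : b.repr (b.equivFun.symm.toEquiv.toEmbedding c) i = c i := by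
      have : b.equivFun (b.equivFun.symm c) = c := b.equivFun.apply_symm_apply c
      exact congrFun this i
    rw [h2]
    omega
  · intro h
    refine ⟨b.equivFun x, ?_, ?_⟩
    · rw [Fintype.mem_piFinset]
      intro i
      have := h i
      rw [mem_Icc, b.equivFun_apply]
      omega
    · exact b.equivFun.symm_apply_apply x

theorem card_box (X : ℕ) : (box b X).card = (2 * X + 1) ^ d := by
  rw [box, card_map, Fintype.card_piFinset]
  simp only [Int.card_Icc, prod_const, card_univ, Fintype.card_fin]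
  congr 1
  omega

/-- The elements with all coordinates between `0` and `X`. -/
noncomputable def posBox (X : ℕ) : Finset R :=
  (Fintype.piFinset fun _ : Fin d => Icc (0 : ℤ) X).map b.equivFun.symm.toEquiv.toEmbedding

theorem mem_posBox {X : ℕ} {x : R} (hx : x ∈ posBox b X) (i : Fin d) :
    0 ≤ b.repr x i ∧ b.repr x i ≤ X := by
  rw [posBox, mem_map] at hx
  obtain ⟨c, hc, rfl⟩ := hx
  have h1 := mem_Icc.1 (Fintype.mem_piFinset.1 hc i)
  have h2 : b.repr (b.equivFun.symm.toEquiv.toEmbedding c) i = c i := by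
    have : b.equivFun (b.equivFun.symm c) = c := b.equivFun.apply_symm_apply c
    exact congrFun this i
  rw [h2]
  exact h1

theorem card_posBox (X : ℕ) : (posBox b X).card = (X + 1) ^ d := by
  rw [posBox, card_map, Fintype.card_piFinset]
  simp only [Int.card_Icc, prod_const, card_univ, Fintype.card_fin]
  congr 1

theorem nn_sub_le_of_posBox {X : ℕ} {x y : R} (hx : x ∈ posBox b X) (hy : y ∈ posBox b X) :
    nn b (x - y) ≤ X := by
  rw [nn_le_iff]
  intro i
  have h1 := mem_posBox b hx i
  have h2 := mem_posBox b hy i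
  rw [map_sub, Finsupp.sub_apply]
  omega

/-- Division with remainder by an integer, coordinatewise. -/
theorem exists_divMod (x : R) (D : ℤ) (hD : D ≠ 0) :
    ∃ q r : R, x = D • q + r ∧ nn b r ≤ D.natAbs := by
  refine ⟨∑ i, (b.repr x i / D) • b i, ∑ i, (b.repr x i % D) • b i, ?_, ?_⟩
  · conv_lhs => rw [← b.sum_repr x]
    rw [smul_sum, ← sum_add_distrib]
    apply sum_congr rfl
    intro i _
    rw [smul_smul, ← add_smul, Int.mul_ediv_add_emod]
  · rw [nn_le_iff]
    intro i
    rw [b.repr_sum_self]
    have h1 := Int.emod_nonneg (b.repr x i) hD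
    have h2 := Int.emod_lt_abs (b.repr x i) hD
    rw [Int.abs_eq_natAbs] at h2
    omega

variable [IsDomain R]

include b in
/-- Every nonzero element has a nonzero integer multiple. -/
theorem exists_int_multiple {g : R} (hg : g ≠ 0) :
    ∃ (D : ℤ) (r : R), D ≠ 0 ∧ r * g = (D : R) := by
  have : Module.Finite ℤ R := Module.Finite.of_basis b
  have h1 : IsAlgebraic ℤ g := (Algebra.IsIntegral.isIntegral g).isAlgebraic
  obtain ⟨D, hD, r, hr⟩ := h1.exists_nonzero_dvd (mem_nonZeroDivisors_of_ne_zero hg)
  refine ⟨D, r, hD, ?_⟩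
  rw [mul_comm, ← hr]
  simp

/-- Reduction modulo a nonzero element. -/
theorem exists_mod {g : R} (hg : g ≠ 0) (x : R) :
    ∃ y q : R, x = y + g * q ∧ nn b y ≤ mulC b * nn b g := by
  obtain ⟨D, r, hD, hr⟩ := exists_int_multiple b hg
  obtain ⟨q, s, hqs, hs⟩ := exists_divMod b (x * r) D hD
  refine ⟨x - g * q, q, by ring, ?_⟩
  have h1 : D • (x - g * q) = s * g := by
    rw [zsmul_eq_mul]
    rw [zsmul_eq_mul] at hqs
    have h2 : x * (r * g) = (D * q + s) * g := by rw [← mul_assoc, hqs]
    rw [hr] at h2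
    linear_combination h2
  have h2 : D.natAbs * nn b (x - g * q) ≤ D.natAbs * (mulC b * nn b g) := by
    rw [← nn_zsmul, h1]
    calc nn b (s * g) ≤ mulC b * nn b s * nn b g := nn_mul_le b _ _
      _ ≤ mulC b * D.natAbs * nn b g := by gcongr
      _ = D.natAbs * (mulC b * nn b g) := by ring
  exact Nat.le_of_mul_le_mul_left h2 (Int.natAbs_pos.2 hD)

end Pool.Agent.W964.PiAdic
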