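import Pool.Agent.W964.PiAdic.Second
import Pool.Agent.W964.Nadic.GroupCount

/-!
# Few lattices have short vectors
-/

set_option autoImplicit false

open Finset Module

namespace Pool.Agent.W964.PiAdic

open Classical in
/-- the lattice points `(f, g)` with `g ≠ 0` and norm at most `Y` -/
noncomputable def pts {R : Type*} [CommRing R] {d : ℕ} (b : Basis (Fin d) ℤ R) (P α : R) (Y : ℕ) :
    Finset (R × R) :=
  (box b Y ×ˢ box b Y).filter (fun p => p.2 ≠ 0 ∧ P ∣ p.2 * α - p.1)

variable {R : Type*} [CommRing R] [IsDomain R] {d : ℕ} (b : Basis (Fin d) ℤ R)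

theorem pow_le_card_pts {P α : R} (Y m : ℕ) {f₁ g₁ : R} (hg : g₁ ≠ 0)
    (hL : P ∣ g₁ * α - f₁) (hf1 : nn b f₁ ≤ m) (hg1 : nn b g₁ ≤ m) :
    (Y / (mulC b * m) + 1) ^ d ≤ (pts b P α Y).card + 1 := by
  classical
  set X := Y / (mulC b * m) with hX
  have hXY : mulC b * X * m ≤ Y := by
    have h1 : mulC b * X * m = X * (mulC b * m) := by ring
    rw [h1]
    exact Nat.div_mul_le_self _ _
  calc (X + 1) ^ d ≤ (2 * X + 1) ^ d := by gcongr; omega
    _ = (box b X).card := (card_box b X).symm
    _ ≤ (insert (0, 0) (pts b P α Y)).card := by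
        apply card_le_card_of_injOn (fun r : R => (r * f₁, r * g₁))
        · intro r hr
          have hr' := (mem_box b).1 (mem_coe.1 hr)
          apply mem_coe.2
          rw [mem_insert]
          by_cases hr0 : r = 0
          · left
            simp [hr0]
          · right
            rw [pts, mem_filter, mem_product, mem_box, mem_box]
            refine ⟨⟨?_, ?_⟩, mul_ne_zero hr0 hg, ?_⟩
            · calc nn b (r * f₁) ≤ mulC b * nn b r * nn b f₁ := nn_mul_le b _ _
                _ ≤ mulC b * X * m := by gcongr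
                _ ≤ Y := hXY
            · calc nn b (r * g₁) ≤ mulC b * nn b r * nn b g₁ := nn_mul_le b _ _
                _ ≤ mulC b * X * m := by gcongr
                _ ≤ Y := hXY
            · have : r * g₁ * α - r * f₁ = r * (g₁ * α - f₁) := by ring
              show P ∣ r * g₁ * α - r * f₁
              rw [this]
              exact Dvd.dvd.mul_left hL _
        · intro r _ r' _ hrr
          exact mul_right_cancel₀ hg (Prod.mk.inj hrr).2
    _ ≤ (pts b P α Y).card + 1 := card_insert_le _ _

theorem sum_card_pts_le {ι : Type*} [Fintype ι] (P : R) [Finite (R ⧸ Ideal.span {P})]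
    (α : ι → R) (hα : Function.Injective fun i => (Ideal.Quotient.mk (Ideal.span {P})) (α i))
    (Y : ℕ) :
    ∑ i, (pts b P (α i) Y).card ≤ (2 * Y + 1) ^ d * (2 * ((mulC b + 1) * Y) + 1) ^ d := by
  classical
  have hft : Fintype (R ⧸ Ideal.span {P}) := Fintype.ofFinite _
  have h1 : ∀ i, (pts b P (α i) Y).card = ∑ g ∈ (box b Y).filter (fun g => g ≠ 0),
      ((box b Y).filter (fun f => P ∣ g * α i - f)).card := by
    intro i
    rw [pts, card_filter, sum_product_right, sum_filter]
    apply sum_congr rfl
    intro g _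
    by_cases hg : g = 0
    · simp [hg]
    · simp only [hg, ne_eq, not_false_eq_true, true_and, if_true]
      rw [card_filter]
  rw [sum_congr rfl (fun i _ => h1 i), sum_comm]
  have h2 : ∀ g ∈ (box b Y).filter (fun g => g ≠ 0),
      ∑ i, ((box b Y).filter (fun f => P ∣ g * α i - f)).card ≤ (box b ((mulC b + 1) * Y)).card := by
    intro g hg
    have hg' := mem_filter.1 hg
    have hgY := (mem_box b).1 hg'.1
    have h3 := Nadic.card_pairs_le (A := R ⧸ Ideal.span {P}) (E := R)
      (Ideal.Quotient.mk (Ideal.span {P})).toAddMonoidHom Ideal.Quotient.mk_surjective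
      (AddMonoidHom.mulLeft (Ideal.Quotient.mk (Ideal.span {P}) g)) (box b Y)
      (box b (mulC b * Y)) (box b ((mulC b + 1) * Y))
      (by
        intro x
        obtain ⟨y, q, hxy, hy⟩ := exists_mod b hg'.2 x
        refine ⟨y, ?_, Ideal.Quotient.mk _ q, ?_⟩
        · rw [mem_box]
          exact hy.trans (Nat.mul_le_mul_left _ hgY)
        · simp only [AddMonoidHom.coe_mulLeft, RingHom.toAddMonoidHom_eq_coe,
            AddMonoidHom.coe_coe]
          rw [← map_mul, hxy]
          congr 1
          ring)
      (by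
        intro y hy f hf
        rw [mem_box] at hy hf ⊢
        refine (nn_add_le b _ _).trans ?_
        calc nn b y + nn b f ≤ mulC b * Y + Y := add_le_add hy hf
          _ = (mulC b + 1) * Y := by ring)
    refine le_trans ?_ h3
    have h4 : ∑ i, ((box b Y).filter (fun f => P ∣ g * α i - f)).card =
        (((univ : Finset ι) ×ˢ box b Y).filter (fun p : ι × R => P ∣ g * α p.1 - p.2)).card := by
      rw [card_filter, sum_product]
      apply sum_congr rfl
      intro i _
      rw [card_filter]
    rw [h4]
    apply card_le_card_of_injOn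
      (fun p : ι × R => ((Ideal.Quotient.mk (Ideal.span {P})) (α p.1), p.2))
    · intro p hp
      have hp' := mem_filter.1 (mem_coe.1 hp)
      have hp'' := mem_product.1 hp'.1
      apply mem_coe.2
      rw [mem_filter, mem_product]
      refine ⟨⟨mem_univ _, hp''.2⟩, ?_⟩
      simp only [AddMonoidHom.coe_mulLeft, RingHom.toAddMonoidHom_eq_coe, AddMonoidHom.coe_coe]
      rw [← map_mul, Ideal.Quotient.eq, Ideal.mem_span_singleton]
      exact hp'.2
    · intro p _ p' _ heq
      have h5 := Prod.mk.inj heq
      exact Prod.ext (hα h5.1) h5.2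
  calc ∑ g ∈ (box b Y).filter (fun g => g ≠ 0),
        ∑ i, ((box b Y).filter (fun f => P ∣ g * α i - f)).card
      ≤ ∑ _g ∈ (box b Y).filter (fun g => g ≠ 0), (box b ((mulC b + 1) * Y)).card :=
        sum_le_sum h2
    _ = ((box b Y).filter (fun g => g ≠ 0)).card * (box b ((mulC b + 1) * Y)).card := by
        rw [sum_const, smul_eq_mul]
    _ ≤ (box b Y).card * (box b ((mulC b + 1) * Y)).card :=
        Nat.mul_le_mul_right _ (card_filter_le _ _)
    _ = _ := by rw [card_box, card_box]

end Pool.Agent.W964.PiAdic
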