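import Mathlib

/-!
# The `π`-adic complexity of finite sequences

Definitions for `MP_cc6759_lc`.
-/

set_option autoImplicit false

open Finset Module

namespace Pool.Agent.W964.PiAdic

variable {R : Type*} [CommRing R]

/-- The element `a_0 + a_1 π + ... + a_(n-1) π^(n-1)` of `R`: the residue modulo `π^n` of the
`π`-adic number `∑ a_i π^i` of the sequence `a` over `{0, ..., N-1}`. -/
def prefixValue (π : R) {N : ℕ} (a : ℕ → Fin N) (n : ℕ) : R :=
  ∑ i ∈ range n, ((a i : ℕ) : R) * π ^ i

/-- The sequence `a` is the output of an AFSR over `(R, π, {0, ..., N-1})` with connection element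
`g` (invertible modulo `π`) whose output has the `π`-adic number `f / g`: `g ∑ a_i π^i = f`, which
means congruence modulo `π^n` for all `n`. -/
def IsOutput (π : R) {N : ℕ} (a : ℕ → Fin N) (f g : R) : Prop :=
  IsCoprime g π ∧ ∀ n : ℕ, π ^ n ∣ g * prefixValue π a n - f

/-- The `π`-adic complexity of the finite sequence `w` for the size function `φ`: the minimum
(infimum) of `max (φ f) (φ g)` over all AFSRs whose first outputs are `w`. -/
noncomputable def complexity (π : R) (φ : R → ℝ) {N n : ℕ} (w : Fin n → Fin N) : ℝ :=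
  sInf {x : ℝ | ∃ (a : ℕ → Fin N) (f g : R), (∀ i : Fin n, a i = w i) ∧ IsOutput π a f g ∧
    x = max (φ f) (φ g)}

/-- The average `E_n^fin` of the `π`-adic complexity over all `N^n` sequences of length `n`. -/
noncomputable def average (π : R) (φ : R → ℝ) (N n : ℕ) : ℝ :=
  (∑ w : Fin n → Fin N, complexity π φ w) / (N : ℝ) ^ n

/-- The size `log_N (u ^ 2 + N v ^ 2)` of `u + v π`, where `1, π` is the basis `b`; case (i). -/
noncomputable def sizeQuad (N : ℕ) (b : Basis (Fin 2) ℤ R) (x : R) : ℝ :=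
  Real.logb N ((b.repr x 0 : ℝ) ^ 2 + N * (b.repr x 1 : ℝ) ^ 2)

/-- The size `max (d log_N |u_i| + i)`, the maximum over all `i` with `u_i ≠ 0`, of `∑ u_i π^i`,
where `1, π, ..., π^(d-1)` is the basis `b`; case (ii). -/
noncomputable def sizeRoot (N : ℕ) {d : ℕ} (b : Basis (Fin d) ℤ R) (x : R) : ℝ :=
  sSup {y : ℝ | ∃ i : Fin d, b.repr x i ≠ 0 ∧ y = d * Real.logb N |(b.repr x i : ℝ)| + (i : ℕ)}

end Pool.Agent.W964.PiAdic
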