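import Pool.Agent.W964.PiAdic.Lattice

/-!
# A lattice vector with `g ≡ 1` modulo `N` and small norm
-/

set_option autoImplicit false

open Finset Module

namespace Pool.Agent.W964.PiAdic

variable {R : Type*} [CommRing R] [IsDomain R] {d : ℕ} (b : Basis (Fin d) ℤ R)

include b in
theorem dim_pos : 0 < d := by
  rcases Nat.eq_zero_or_pos d with h | h
  · subst h
    exfalso
    have h1 : (1 : R) = 0 := by
      apply b.repr.injective
      ext i
      exact i.elim0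
    exact one_ne_zero h1
  · exact h

theorem exists_good (P α : R) [Finite (R ⧸ Ideal.span {P})] (N : ℕ) (hN : 0 < N) :
    ∃ f g h : R, P ∣ g * α - f ∧ g = 1 - N * h ∧
      (nn b f : ℝ) * minNorm b P α ≤
        8 * mulC b * N * (Nat.card (R ⧸ Ideal.span {P}) : ℝ) ^ (1 / (d : ℝ)) ∧
      (nn b g : ℝ) * minNorm b P α ≤
        8 * mulC b * N * (Nat.card (R ⧸ Ideal.span {P}) : ℝ) ^ (1 / (d : ℝ)) := by
  have hd := dim_pos b
  obtain ⟨f₁, g₁, hv, hL1, hf1, hg1⟩ := minNorm_spec b P α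
  have hmpow := minNorm_pow_le b P α
  have hm0 := minNorm_pos b P α
  set m := minNorm b P α with hm
  set Q := Nat.card (R ⧸ Ideal.span {P}) with hQ
  have hQ0 : 0 < Q := Nat.card_pos
  have hQR : (0 : ℝ) < Q := by exact_mod_cast hQ0
  set ρ : ℝ := (Q : ℝ) ^ (1 / (d : ℝ)) with hρ
  have hd' : (d : ℝ) ≠ 0 := by exact_mod_cast hd.ne'
  have hρpow : ρ ^ d = Q := by
    rw [hρ, ← Real.rpow_natCast, ← Real.rpow_mul hQR.le, one_div, inv_mul_cancel₀ hd',
      Real.rpow_one]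
  have hρ0 : 0 < ρ := Real.rpow_pos_of_pos hQR _
  have hmR : (1 : ℝ) ≤ m := by exact_mod_cast hm0
  have hm2 : (m : ℝ) ^ 2 ≤ ρ := by
    have h1 : ((m : ℝ) ^ 2) ^ d ≤ ρ ^ d := by
      rw [hρpow, ← pow_mul]
      exact_mod_cast hmpow
    exact le_of_pow_le_pow_left₀ hd.ne' hρ0.le h1
  set Z := ⌈3 * ρ / m⌉₊ with hZ
  have hZ1 : 3 * ρ / m ≤ Z := Nat.le_ceil _
  have hρm : (m : ℝ) ≤ ρ / m := by
    rw [le_div_iff₀ (by linarith)]
    nlinarith
  have hZ2 : (Z : ℝ) ≤ 4 * ρ / m := by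
    have h1 : (Z : ℝ) < 3 * ρ / m + 1 := Nat.ceil_lt_add_one (by positivity)
    have h2 : 4 * ρ / m = 3 * ρ / m + ρ / m := by ring
    linarith
  have hmZ : (m : ℝ) ≤ Z := by
    have h2 : 3 * ρ / m = 3 * (ρ / m) := by ring
    linarith
  have hmZ' : m ≤ Z := by exact_mod_cast hmZ
  -- there is a non-parallel vector
  obtain ⟨f₂, g₂, hL2, hf2, hg2, hdet⟩ : ∃ f g : R, P ∣ g * α - f ∧ nn b f ≤ Z ∧ nn b g ≤ Z ∧
      f₁ * g - f * g₁ ≠ 0 := by
    by_contra hcon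
    push Not at hcon
    have h1 := pow_le_of_parallel b P α (v := (f₁, g₁)) hv Z (by
      intro f g h hf hg
      exact sub_eq_zero.1 (hcon f g h hf hg))
    rw [← hm, ← hQ] at h1
    have h2 : 1 + 2 * (Z : ℝ) / m ≤ 3 * Z / m := by
      have h3 : 3 * (Z : ℝ) / m = 2 * (Z : ℝ) / m + Z / m := by ring
      have h4 : 1 ≤ (Z : ℝ) / m := by
        rw [le_div_iff₀ (by linarith)]
        linarith
      linarith
    have h3 : (Q : ℝ) * (1 + 2 * (Z : ℝ) / m) ^ d ≤ (Z : ℝ) ^ (2 * d) := by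
      have hZ0 : (0 : ℝ) ≤ Z := Nat.cast_nonneg _
      calc (Q : ℝ) * (1 + 2 * (Z : ℝ) / m) ^ d ≤ ρ ^ d * (3 * Z / m) ^ d := by
            rw [hρpow]
            gcongr
        _ = (3 * ρ / m) ^ d * Z ^ d := by
            rw [← mul_pow, ← mul_pow]
            congr 1
            ring
        _ ≤ (Z : ℝ) ^ d * Z ^ d := by gcongr
        _ = (Z : ℝ) ^ (2 * d) := by rw [← pow_add, two_mul]
    have h4 : (Z : ℝ) ^ (2 * d) < ((Z : ℝ) + 1) ^ (2 * d) := by
      apply pow_lt_pow_left₀ (by linarith) (Nat.cast_nonneg _)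
      omega
    linarith
  obtain ⟨f, g, h, hL, hg, hnf, hng⟩ := exists_reduced b P α N hN hL1 hL2 hdet Z
    (hf1.trans hmZ') (hg1.trans hmZ') hf2 hg2
  have hZm : (Z : ℝ) * m ≤ 4 * ρ := by
    rw [← le_div_iff₀ (by linarith)]
    exact hZ2
  have key : ∀ k : ℕ, k ≤ 2 * mulC b * N * Z → (k : ℝ) * m ≤ 8 * mulC b * N * ρ := by
    intro k hk
    have h1 : (k : ℝ) ≤ 2 * mulC b * N * Z := by exact_mod_cast hk
    calc (k : ℝ) * m ≤ (2 * mulC b * N * Z) * m := by gcongr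
      _ = 2 * mulC b * N * (Z * m) := by ring
      _ ≤ 2 * mulC b * N * (4 * ρ) := by gcongr
      _ = 8 * mulC b * N * ρ := by ring
  exact ⟨f, g, h, hL, hg, key _ hnf, key _ hng⟩

end Pool.Agent.W964.PiAdic
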