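import Pool.Agent.W964.PiAdic.Defs
import Pool.Agent.W964.PiAdic.Second

/-!
# Digits
-/

set_option autoImplicit false

open Finset Module

namespace Pool.Agent.W964.PiAdic

variable {R : Type*} [CommRing R]

/-- The value of a finite word. -/
def wordValue (π : R) {N n : ℕ} (w : Fin n → Fin N) : R := ∑ i : Fin n, ((w i : ℕ) : R) * π ^ (i : ℕ)

theorem prefixValue_eq_wordValue {π : R} {N n : ℕ} (a : ℕ → Fin N) (w : Fin n → Fin N)
    (h : ∀ i : Fin n, a i = w i) : prefixValue π a n = wordValue π w := by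
  unfold prefixValue wordValue
  rw [← Fin.sum_univ_eq_sum_range (fun i => ((a i : ℕ) : R) * π ^ i)]
  apply sum_congr rfl
  intro i _
  rw [h i]

theorem prefixValue_succ (π : R) {N : ℕ} (a : ℕ → Fin N) (n : ℕ) :
    prefixValue π a (n + 1) = prefixValue π a n + ((a n : ℕ) : R) * π ^ n := by
  simp [prefixValue, sum_range_succ]

theorem wordValue_cons (π : R) {N n : ℕ} (w : Fin (n + 1) → Fin N) :
    wordValue π w = ((w 0 : ℕ) : R) + π * wordValue π (fun i : Fin n => w i.succ) := by
  rw [wordValue, Fin.sum_univ_succ, wordValue, mul_sum]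
  simp only [Fin.val_zero, pow_zero, mul_one, Fin.val_succ]
  congr 1
  apply sum_congr rfl
  intro i _
  ring

section basis

variable [IsDomain R] {d : ℕ} (b : Basis (Fin d) ℤ R) {π : R} (hb : ∀ i, b i = π ^ (i : ℕ)) {c : ℤ}
  (hπ : π ^ d = (c : R))

include b hb in
theorem exists_eq_int_add (x : R) : ∃ (k : ℤ) (y : R), x = k + π * y := by
  have hd := dim_pos b
  obtain ⟨e, rfl⟩ : ∃ e, d = e + 1 := ⟨d - 1, by omega⟩
  refine ⟨b.repr x 0, ∑ i : Fin e, b.repr x i.succ • π ^ (i : ℕ), ?_⟩
  conv_lhs => rw [← b.sum_repr x]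
  rw [Fin.sum_univ_succ, hb 0, mul_sum]
  simp only [Fin.val_zero, pow_zero, zsmul_eq_mul, mul_one]
  congr 1
  apply sum_congr rfl
  intro i _
  rw [hb, Fin.val_succ]
  ring

include b hb hπ in
theorem dvd_of_pi_dvd {k : ℤ} (h : π ∣ (k : R)) : c ∣ k := by
  have hd := dim_pos b
  obtain ⟨e, rfl⟩ : ∃ e, d = e + 1 := ⟨d - 1, by omega⟩
  obtain ⟨y, hy⟩ := h
  have h0 : b 0 = 1 := by
    rw [hb]
    simp
  have h1 : π * y = ∑ i : Fin e, b.repr y i.castSucc • b i.succ +
      (b.repr y (Fin.last e) * c) • b 0 := by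
    conv_lhs => rw [← b.sum_repr y]
    rw [Fin.sum_univ_castSucc, mul_add, mul_sum]
    congr 1
    · apply sum_congr rfl
      intro i _
      rw [hb, hb, Fin.val_succ, Fin.val_castSucc, zsmul_eq_mul, zsmul_eq_mul]
      ring
    · rw [hb, h0, Fin.val_last, zsmul_eq_mul, zsmul_eq_mul]
      push_cast
      rw [← hπ]
      ring
  have h2 : b.repr (π * y) 0 = b.repr y (Fin.last e) * c := by
    rw [h1, map_add, map_sum, Finsupp.add_apply, Finsupp.finsetSum_apply]
    rw [sum_eq_zero, zero_add]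
    · rw [map_zsmul, b.repr_self, Finsupp.smul_apply, Finsupp.single_eq_same, smul_eq_mul,
        mul_one]
    · intro i _
      rw [map_zsmul, b.repr_self, Finsupp.smul_apply, Finsupp.single_apply,
        if_neg (Fin.succ_ne_zero i), smul_zero]
  have h3 : b.repr ((k : ℤ) : R) 0 = k := by
    have : ((k : ℤ) : R) = k • b 0 := by
      rw [h0, zsmul_eq_mul, mul_one]
    rw [this, map_zsmul, b.repr_self, Finsupp.smul_apply, Finsupp.single_eq_same, smul_eq_mul,
      mul_one]
  rw [hy, h2] at h3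
  exact ⟨_, by rw [← h3, mul_comm]⟩

include b hπ in
theorem pi_dvd_natCast {N : ℕ} (hN : c.natAbs = N) : π ∣ (N : R) := by
  have hd := dim_pos b
  have h1 : π ∣ ((c : ℤ) : R) := by
    rw [← hπ]
    exact dvd_pow_self _ hd.ne'
  rcases Int.natAbs_eq c with h | h
  · rw [hN] at h
    rw [h] at h1
    exact_mod_cast h1
  · rw [hN] at h
    rw [h] at h1
    push_cast at h1
    exact (dvd_neg).1 h1

include b hb hπ in
theorem exists_digit {N : ℕ} (hN0 : 0 < N) (hN : c.natAbs = N) (x : R) :
    ∃ (s : Fin N) (y : R), x = ((s : ℕ) : R) + π * y := by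
  obtain ⟨k, y, hk⟩ := exists_eq_int_add b hb x
  obtain ⟨z, hz⟩ := pi_dvd_natCast b hπ hN
  have hN' : (0 : ℤ) < N := by exact_mod_cast hN0
  have h1 : 0 ≤ k % N := Int.emod_nonneg _ hN'.ne'
  have h2 : k % N < N := Int.emod_lt_of_pos _ hN'
  refine ⟨⟨(k % N).toNat, by omega⟩, y + z * ((k / N : ℤ) : R), ?_⟩
  have h3 : ((((k % N).toNat : ℕ) : ℤ) : R) = ((k % N : ℤ) : R) := by
    rw [Int.toNat_of_nonneg h1]
  have h4 : (k : R) = ((k % N : ℤ) : R) + (N : R) * ((k / N : ℤ) : R) := by
    have := Int.emod_add_mul_ediv k N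
    exact_mod_cast (congrArg (fun t : ℤ => (t : R)) this).symm
  rw [hk, h4, ← h3, hz]
  push_cast
  ring

include b hb hπ in
theorem wordValue_injective {N : ℕ} (hN : c.natAbs = N) (n : ℕ) (w w' : Fin n → Fin N)
    (hπ0 : π ≠ 0) (h : π ^ n ∣ wordValue π w - wordValue π w') : w = w' := by
  induction n with
  | zero =>
    funext i
    exact i.elim0
  | succ n ih =>
    rw [wordValue_cons, wordValue_cons] at h
    have h1 : (((w 0 : ℕ) : R) + π * wordValue π (fun i : Fin n => w i.succ)) -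
        (((w' 0 : ℕ) : R) + π * wordValue π (fun i : Fin n => w' i.succ)) =
        ((((w 0 : ℕ) : ℤ) - ((w' 0 : ℕ) : ℤ) : ℤ) : R) +
        π * (wordValue π (fun i : Fin n => w i.succ) - wordValue π (fun i : Fin n => w' i.succ)) := by
      push_cast
      ring
    rw [h1] at h
    have h2 : π ∣ ((((w 0 : ℕ) : ℤ) - ((w' 0 : ℕ) : ℤ) : ℤ) : R) := by
      have h3 : π ∣ π ^ (n + 1) := dvd_pow_self _ (Nat.succ_ne_zero n)
      exact (dvd_add_left (dvd_mul_right _ _)).1 (h3.trans h)
    have h3 := dvd_of_pi_dvd b hb hπ h2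
    have h4 : w 0 = w' 0 := by
      have h5 : (N : ℤ) ∣ ((w 0 : ℕ) : ℤ) - ((w' 0 : ℕ) : ℤ) := by
        have h6 : (N : ℤ) = (c.natAbs : ℤ) := by rw [hN]
        exact (dvd_of_eq h6).trans (Int.natAbs_dvd.2 h3)
      have h6 := (w 0).isLt
      have h7 := (w' 0).isLt
      have h8 : ((w 0 : ℕ) : ℤ) - ((w' 0 : ℕ) : ℤ) = 0 := by
        apply Int.eq_zero_of_abs_lt_dvd h5
        rw [abs_lt]
        omega
      apply Fin.ext
      omega
    rw [h4, sub_self, Int.cast_zero, zero_add, pow_succ, mul_comm (π ^ n) π] at h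
    have h5 := (mul_dvd_mul_iff_left hπ0).1 h
    have h6 := ih _ _ h5
    funext i
    refine Fin.cases h4 (fun j => ?_) i
    exact congrFun h6 j

include b hb hπ in
theorem wordValue_surjective {N : ℕ} (hN0 : 0 < N) (hN : c.natAbs = N) (n : ℕ) (x : R) :
    ∃ w : Fin n → Fin N, π ^ n ∣ x - wordValue π w := by
  induction n generalizing x with
  | zero => exact ⟨fun i => i.elim0, by simp⟩
  | succ n ih =>
    obtain ⟨s, y, hxy⟩ := exists_digit b hb hπ hN0 hN x
    obtain ⟨w, hw⟩ := ih y
    refine ⟨Fin.cons s w, ?_⟩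
    rw [wordValue_cons]
    simp only [Fin.cons_zero, Fin.cons_succ]
    have h1 : x - (((s : ℕ) : R) + π * wordValue π w) = π * (y - wordValue π w) := by
      rw [hxy]
      ring
    have h2 : (fun i : Fin n => w i) = w := rfl
    rw [h1, pow_succ, mul_comm (π ^ n) π]
    exact mul_dvd_mul_left _ hw

include b hπ in
theorem pi_ne_zero {N : ℕ} (hN0 : 0 < N) (hN : c.natAbs = N) : π ≠ 0 := by
  rintro rfl
  have hd := dim_pos b
  rw [zero_pow hd.ne'] at hπ
  have h1 : (c : ℤ) = 0 := by
    have hinj : Function.Injective (algebraMap ℤ R) := by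
      have : Module.Free ℤ R := Module.Free.of_basis b
      exact FaithfulSMul.algebraMap_injective ℤ R
    apply hinj
    rw [map_zero]
    exact hπ.symm
  rw [h1] at hN
  simp at hN
  omega

include b hb hπ in
theorem card_quotient {N : ℕ} (hN0 : 0 < N) (hN : c.natAbs = N) (n : ℕ) :
    Finite (R ⧸ Ideal.span {π ^ n}) ∧ Nat.card (R ⧸ Ideal.span {π ^ n}) = N ^ n := by
  have hbij : Function.Bijective
      (fun w : Fin n → Fin N => Ideal.Quotient.mk (Ideal.span {π ^ n}) (wordValue π w)) := by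
    constructor
    · intro w w' h
      rw [Ideal.Quotient.eq, Ideal.mem_span_singleton] at h
      exact wordValue_injective b hb hπ hN n w w' (pi_ne_zero b hπ hN0 hN) h
    · intro x
      obtain ⟨x, rfl⟩ := Ideal.Quotient.mk_surjective x
      obtain ⟨w, hw⟩ := wordValue_surjective b hb hπ hN0 hN n x
      refine ⟨w, ?_⟩
      show Ideal.Quotient.mk _ _ = _
      rw [eq_comm, Ideal.Quotient.eq, Ideal.mem_span_singleton]
      exact hw
  refine ⟨Finite.of_surjective _ hbij.2, ?_⟩
  rw [← Nat.card_eq_of_bijective _ hbij]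
  simp

include b hb hπ in
/-- Extension of a finite word to an output of an AFSR. -/
theorem exists_extension {N : ℕ} (hN0 : 0 < N) (hN : c.natAbs = N) {n : ℕ} (w : Fin n → Fin N)
    {f g : R} (hg : IsCoprime g π) (hd : π ^ n ∣ g * wordValue π w - f) :
    ∃ a : ℕ → Fin N, (∀ i : Fin n, a i = w i) ∧ IsOutput π a f g := by
  classical
  have hdig : ∀ x : R, ∃ (s : Fin N) (y : R), x - g * ((s : ℕ) : R) = π * y := by
    intro x
    obtain ⟨u, v, huv⟩ := hg
    obtain ⟨s, y, hs⟩ := exists_digit b hb hπ hN0 hN (u * x)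
    refine ⟨s, v * x + g * y, ?_⟩
    linear_combination (-x) * huv + g * hs
  choose dig nxt hnxt using hdig
  obtain ⟨c0, hc0⟩ := hd
  let rem : ℕ → R := fun k => Nat.rec (-c0) (fun _ c => nxt c) k
  have hrem' : ∀ k, π * rem (k + 1) = rem k - g * ((dig (rem k) : ℕ) : R) :=
    fun k => (hnxt (rem k)).symm
  let a : ℕ → Fin N := fun i => if h : i < n then w ⟨i, h⟩ else dig (rem (i - n))
  have haw : ∀ i : Fin n, a i = w i := by
    intro i
    simp [a]
  have han : ∀ k, a (n + k) = dig (rem k) := by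
    intro k
    simp [a]
  have hpre : prefixValue π a n = wordValue π w := prefixValue_eq_wordValue a w haw
  have hkey : ∀ k, g * prefixValue π a (n + k) - f = -(π ^ (n + k) * rem k) := by
    intro k
    induction k with
    | zero =>
      rw [add_zero, hpre, hc0]
      show _ = -(π ^ n * (-c0))
      ring
    | succ k ih =>
      rw [← add_assoc, prefixValue_succ, han, pow_succ]
      have h1 := hrem' k
      linear_combination ih + π ^ (n + k) * h1
  refine ⟨a, haw, hg, ?_⟩
  intro m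
  rcases le_or_gt n m with h | h
  · obtain ⟨k, rfl⟩ := Nat.exists_eq_add_of_le h
    rw [hkey]
    exact (dvd_mul_right _ _).neg_right
  · have h1 : ∀ j m, π ^ m ∣ prefixValue π a (m + j) - prefixValue π a m := by
      intro j m
      induction j with
      | zero => simp
      | succ j ih =>
        rw [← add_assoc, prefixValue_succ]
        have h2 : π ^ m ∣ ((a (m + j) : ℕ) : R) * π ^ (m + j) :=
          Dvd.dvd.mul_left (pow_dvd_pow _ (Nat.le_add_right _ _)) _
        have h3 := dvd_add ih h2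
        have h4 : prefixValue π a (m + j) - prefixValue π a m +
            ((a (m + j) : ℕ) : R) * π ^ (m + j) =
            prefixValue π a (m + j) + ((a (m + j) : ℕ) : R) * π ^ (m + j) -
            prefixValue π a m := by ring
        rwa [h4] at h3
    obtain ⟨j, hj⟩ := Nat.exists_eq_add_of_le h.le
    have h2 := h1 j m
    rw [← hj] at h2
    have h3 : π ^ m ∣ g * prefixValue π a n - f := by
      rw [hpre, hc0]
      exact Dvd.dvd.mul_right (pow_dvd_pow _ h.le) _
    have h4 := dvd_sub h3 (Dvd.dvd.mul_left h2 g)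
    have h5 : g * prefixValue π a n - f - g * (prefixValue π a n - prefixValue π a m) =
        g * prefixValue π a m - f := by ring
    rwa [h5] at h4

include b hπ in
/-- Nonzero multiples of `π ^ n` have large norm. -/
theorem pow_le_nn {N : ℕ} (hN0 : 0 < N) (hN : c.natAbs = N) (n : ℕ) {k : R} (hk : k ≠ 0) :
    N ^ (n / d) ≤ nn b (π ^ n * k) := by
  have hπ0 := pi_ne_zero b hπ hN0 hN
  have h1 : π ^ n * k = (c ^ (n / d)) • (π ^ (n % d) * k) := by
    conv_lhs => rw [← Nat.div_add_mod n d]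
    rw [pow_add, pow_mul, hπ, zsmul_eq_mul]
    push_cast
    ring
  rw [h1, nn_zsmul, Int.natAbs_pow, hN]
  exact Nat.le_mul_of_pos_right _ (nn_pos b (mul_ne_zero (pow_ne_zero _ hπ0) hk))

end basis

end Pool.Agent.W964.PiAdic
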