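import Mathlib

/-!
# Separated sets in balls
-/

set_option autoImplicit false

open Metric Set MeasureTheory Module
open scoped ENNReal

namespace Pool.Agent.W964.PiAdic

/-- A `δ`-separated subset of the ball of radius `Y` in a normed space of dimension `k` has at most
`(1 + 2 Y / δ) ^ k` elements. -/
theorem card_le_of_separated {E : Type*} [NormedAddCommGroup E] [NormedSpace ℝ E]
    [FiniteDimensional ℝ E] (s : Finset E) (Y δ : ℝ) (hδ : 0 < δ) (hY : 0 ≤ Y)
    (hs : ∀ c ∈ s, ‖c‖ ≤ Y) (h : ∀ c ∈ s, ∀ d ∈ s, c ≠ d → δ ≤ ‖c - d‖) :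
    (s.card : ℝ) ≤ (1 + 2 * Y / δ) ^ finrank ℝ E := by
  borelize E
  let μ : Measure E := Measure.addHaar
  let δ' : ℝ := δ / 2
  let ρ : ℝ := Y + δ / 2
  have δ'pos : 0 < δ' := by positivity
  have ρpos : 0 < ρ := by positivity
  set A := ⋃ c ∈ s, ball (c : E) δ' with hA
  have D : Set.Pairwise (s : Set E) (Function.onFun Disjoint fun c => ball (c : E) δ') := by
    rintro c hc d hd hcd
    apply ball_disjoint_ball
    rw [dist_eq_norm]
    have := h c hc d hd hcd
    show δ / 2 + δ / 2 ≤ _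
    linarith
  have A_subset : A ⊆ ball (0 : E) ρ := by
    refine iUnion₂_subset fun x hx => ?_
    apply ball_subset_ball'
    have := hs x hx
    rw [dist_zero_right]
    show δ / 2 + ‖x‖ ≤ Y + δ / 2
    linarith
  have I :
    (s.card : ℝ≥0∞) * ENNReal.ofReal (δ' ^ finrank ℝ E) * μ (ball 0 1) ≤
      ENNReal.ofReal (ρ ^ finrank ℝ E) * μ (ball 0 1) :=
    calc
      (s.card : ℝ≥0∞) * ENNReal.ofReal (δ' ^ finrank ℝ E) * μ (ball 0 1) = μ A := by
        rw [hA, measure_biUnion_finset D fun c _ => measurableSet_ball]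
        simp only [μ.addHaar_ball_of_pos _ δ'pos]
        simp only [Finset.sum_const, nsmul_eq_mul, mul_assoc]
      _ ≤ μ (ball (0 : E) ρ) := measure_mono A_subset
      _ = ENNReal.ofReal (ρ ^ finrank ℝ E) * μ (ball 0 1) := by
        simp only [μ.addHaar_ball_of_pos _ ρpos]
  have J : (s.card : ℝ≥0∞) * ENNReal.ofReal (δ' ^ finrank ℝ E) ≤
      ENNReal.ofReal (ρ ^ finrank ℝ E) :=
    (ENNReal.mul_le_mul_iff_left (measure_ball_pos _ _ zero_lt_one).ne' measure_ball_lt_top.ne).1 I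
  have K : (s.card : ℝ) * δ' ^ finrank ℝ E ≤ ρ ^ finrank ℝ E := by
    have := ENNReal.toReal_le_of_le_ofReal (pow_nonneg ρpos.le _) J
    rwa [ENNReal.toReal_mul, ENNReal.toReal_natCast,
      ENNReal.toReal_ofReal (pow_nonneg δ'pos.le _)] at this
  have h1 : (1 + 2 * Y / δ) = ρ / δ' := by
    simp only [ρ, δ']
    field_simp
    ring
  rw [h1, div_pow, le_div_iff₀ (pow_pos δ'pos _)]
  exact K

end Pool.Agent.W964.PiAdic
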