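import Pool.Agent.W964.PiAdic.Coord
import Pool.Agent.W964.PiAdic.Packing

/-!
# The lattice of the pairs `(f, g)` with `f ≡ g α` modulo `P`
-/

set_option autoImplicit false

open Finset Module

namespace Pool.Agent.W964.PiAdic

variable {R : Type*} [CommRing R] {d : ℕ} (b : Basis (Fin d) ℤ R)

/-- The norm of the shortest nonzero vector of the lattice `{(f, g) : P ∣ g α - f}`. -/
noncomputable def minNorm (P α : R) : ℕ :=
  sInf {k : ℕ | ∃ f g : R, (f ≠ 0 ∨ g ≠ 0) ∧ P ∣ g * α - f ∧ nn b f ≤ k ∧ nn b g ≤ k}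

theorem minNorm_spec [Nontrivial R] (P α : R) :
    ∃ f g : R, (f ≠ 0 ∨ g ≠ 0) ∧ P ∣ g * α - f ∧ nn b f ≤ minNorm b P α ∧
      nn b g ≤ minNorm b P α := by
  have h : {k : ℕ | ∃ f g : R, (f ≠ 0 ∨ g ≠ 0) ∧ P ∣ g * α - f ∧ nn b f ≤ k ∧
      nn b g ≤ k}.Nonempty := by
    refine ⟨max (nn b α) (nn b 1), α, 1, Or.inr one_ne_zero, ?_, le_max_left _ _, le_max_right _ _⟩
    simp
  exact Nat.sInf_mem h

theorem minNorm_le {P α : R} {f g : R} {k : ℕ} (h : f ≠ 0 ∨ g ≠ 0)
    (hd : P ∣ g * α - f) (hf : nn b f ≤ k) (hg : nn b g ≤ k) : minNorm b P α ≤ k :=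
  Nat.sInf_le ⟨f, g, h, hd, hf, hg⟩

theorem minNorm_pos [Nontrivial R] (P α : R) : 0 < minNorm b P α := by
  obtain ⟨f, g, h, -, hf, hg⟩ := minNorm_spec b P α
  rcases h with h | h
  · exact lt_of_lt_of_le (nn_pos b h) hf
  · exact lt_of_lt_of_le (nn_pos b h) hg

/-- The class of a pair in the residue ring. -/
noncomputable def cls (P α : R) (p : R × R) : R ⧸ Ideal.span {P} :=
  Ideal.Quotient.mk _ (p.2 * α - p.1)

theorem cls_eq_iff {P α : R} {p q : R × R} :
    cls P α p = cls P α q ↔ P ∣ (p.2 - q.2) * α - (p.1 - q.1) := by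
  rw [cls, cls, Ideal.Quotient.eq, Ideal.mem_span_singleton]
  have : p.2 * α - p.1 - (q.2 * α - q.1) = (p.2 - q.2) * α - (p.1 - q.1) := by ring
  rw [this]

/-- The first pigeonhole bound. -/
theorem minNorm_pow_le [Nontrivial R] (P α : R) [Finite (R ⧸ Ideal.span {P})] :
    minNorm b P α ^ (2 * d) ≤ Nat.card (R ⧸ Ideal.span {P}) := by
  classical
  have hm := minNorm_pos b P α
  set m := minNorm b P α with hmdef
  have : Fintype (R ⧸ Ideal.span {P}) := Fintype.ofFinite _
  rw [Nat.card_eq_fintype_card]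
  have hcard : (posBox b (m - 1) ×ˢ posBox b (m - 1)).card = m ^ (2 * d) := by
    rw [card_product, card_posBox, Nat.sub_add_cancel hm, ← pow_add, two_mul]
  rw [← hcard, ← card_univ]
  apply card_le_card_of_injOn (cls P α) (fun _ _ => mem_coe.2 (mem_univ _))
  intro p hp q hq hpq
  have hp' := mem_product.1 (mem_coe.1 hp)
  have hq' := mem_product.1 (mem_coe.1 hq)
  by_contra hne
  have h1 := minNorm_le b (P := P) (α := α) (f := p.1 - q.1) (g := p.2 - q.2) (k := m - 1)
    (by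
      by_contra hcon
      push Not at hcon
      exact hne (Prod.ext (sub_eq_zero.1 hcon.1) (sub_eq_zero.1 hcon.2)))
    (cls_eq_iff.1 hpq) (nn_sub_le_of_posBox b hp'.1 hq'.1) (nn_sub_le_of_posBox b hp'.2 hq'.2)
  omega

/-! ### The real space -/

/-- The coordinates as real numbers. -/
noncomputable def emb : R →+ (Fin d → ℝ) where
  toFun x := fun i => (b.repr x i : ℝ)
  map_zero' := by
    funext i
    simp
  map_add' x y := by
    funext i
    simp

theorem emb_apply (x : R) (i : Fin d) : emb b x i = (b.repr x i : ℝ) := rfl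

theorem norm_emb (x : R) : ‖emb b x‖ = nn b x := by
  apply le_antisymm
  · rw [pi_norm_le_iff_of_nonneg (Nat.cast_nonneg _)]
    intro i
    rw [emb_apply, Real.norm_eq_abs, ← Int.cast_abs, Int.abs_eq_natAbs]
    exact_mod_cast natAbs_repr_le b x i
  · have h : nn b x ≤ ⌊‖emb b x‖⌋₊ := by
      rw [nn_le_iff]
      intro i
      apply Nat.le_floor
      have h1 := norm_le_pi_norm (emb b x) i
      rw [emb_apply, Real.norm_eq_abs, ← Int.cast_abs, Int.abs_eq_natAbs, Int.cast_natCast] at h1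
      exact h1
    exact (Nat.le_floor_iff (norm_nonneg _)).1 h

/-- The real vector of a pair. -/
noncomputable def emb2 (p : R × R) : (Fin d → ℝ) × (Fin d → ℝ) := (emb b p.1, emb b p.2)

theorem emb2_sub (p q : R × R) : emb2 b (p - q) = emb2 b p - emb2 b q := by
  simp [emb2]

theorem norm_emb2_le_iff {p : R × R} {k : ℕ} :
    ‖emb2 b p‖ ≤ k ↔ nn b p.1 ≤ k ∧ nn b p.2 ≤ k := by
  rw [emb2, norm_prod_le_iff, norm_emb, norm_emb, Nat.cast_le, Nat.cast_le]

theorem le_norm_emb2 {p : R × R} {k : ℕ} (h : k ≤ max (nn b p.1) (nn b p.2)) :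
    (k : ℝ) ≤ ‖emb2 b p‖ := by
  rw [emb2, Prod.norm_mk, norm_emb, norm_emb]
  exact_mod_cast h

/-- The real space spanned by the multiples of a vector. -/
noncomputable def spanMap (v : R × R) : (Fin d → ℝ) →ₗ[ℝ] (Fin d → ℝ) × (Fin d → ℝ) :=
  Fintype.linearCombination ℝ (fun i => emb2 b (b i * v.1, b i * v.2))

theorem emb2_mul (v : R × R) (s : R) :
    emb2 b (s * v.1, s * v.2) = spanMap b v (fun i => (b.repr s i : ℝ)) := by
  rw [spanMap, Fintype.linearCombination_apply]
  have h1 : ∀ x : R, emb b (s * x) = ∑ i, (b.repr s i : ℝ) • emb b (b i * x) := by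
    intro x
    have h2 : s * x = ∑ i, b.repr s i • (b i * x) := by
      conv_lhs => rw [← b.sum_repr s]
      rw [sum_mul]
      apply sum_congr rfl
      intro i _
      rw [smul_mul_assoc]
    rw [h2, map_sum]
    apply sum_congr rfl
    intro i _
    rw [map_zsmul]
    funext j
    simp
  rw [Prod.ext_iff]
  constructor
  · rw [Prod.fst_sum]
    exact h1 v.1
  · rw [Prod.snd_sum]
    exact h1 v.2

variable [IsDomain R]

/-- A vector that is parallel to `v ≠ 0` is a real combination of the multiples of `v`. -/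
theorem mem_range_spanMap {v w : R × R} (hv : v.1 ≠ 0 ∨ v.2 ≠ 0)
    (hdet : v.1 * w.2 = w.1 * v.2) : emb2 b w ∈ LinearMap.range (spanMap b v) := by
  obtain ⟨D, s, hD, h1, h2⟩ : ∃ (D : ℤ) (s : R), D ≠ 0 ∧ D • w.1 = s * v.1 ∧
      D • w.2 = s * v.2 := by
    rcases hv with hv | hv
    · obtain ⟨D, r, hD, hr⟩ := exists_int_multiple b hv
      refine ⟨D, r * w.1, hD, ?_, ?_⟩
      · rw [zsmul_eq_mul, ← hr]
        ring
      · rw [zsmul_eq_mul, ← hr]
        linear_combination r * hdet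
    · obtain ⟨D, r, hD, hr⟩ := exists_int_multiple b hv
      refine ⟨D, r * w.2, hD, ?_, ?_⟩
      · rw [zsmul_eq_mul, ← hr]
        linear_combination (-r) * hdet
      · rw [zsmul_eq_mul, ← hr]
        ring
  have h3 : (D : ℝ) • emb2 b w = spanMap b v (fun i => (b.repr s i : ℝ)) := by
    rw [← emb2_mul, ← h1, ← h2]
    rw [emb2, emb2, map_zsmul, map_zsmul, Prod.smul_mk]
    simp only [Int.cast_smul_eq_zsmul]
  have hD' : (D : ℝ) ≠ 0 := by exact_mod_cast hD
  have h4 : emb2 b w = (D : ℝ)⁻¹ • spanMap b v (fun i => (b.repr s i : ℝ)) := by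
    rw [← h3, smul_smul, inv_mul_cancel₀ hD', one_smul]
  rw [h4]
  exact Submodule.smul_mem _ _ (LinearMap.mem_range_self _ _)

/-- If all lattice vectors of norm at most `Z` are parallel, then `Z` is small. -/
theorem pow_le_of_parallel (P α : R) [Finite (R ⧸ Ideal.span {P})] {v : R × R}
    (hv : v.1 ≠ 0 ∨ v.2 ≠ 0) (Z : ℕ)
    (hpar : ∀ f g : R, P ∣ g * α - f → nn b f ≤ Z → nn b g ≤ Z → v.1 * g = f * v.2) :
    ((Z : ℝ) + 1) ^ (2 * d) ≤ Nat.card (R ⧸ Ideal.span {P}) *
      (1 + 2 * (Z : ℝ) / minNorm b P α) ^ d := by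
  classical
  set m := minNorm b P α with hm
  have hm0 : (0 : ℝ) < m := by exact_mod_cast minNorm_pos b P α
  have hft : Fintype (R ⧸ Ideal.span {P}) := Fintype.ofFinite _
  rw [Nat.card_eq_fintype_card]
  set S : Finset (R × R) := posBox b Z ×ˢ posBox b Z with hS
  have hScard : (S.card : ℝ) = ((Z : ℝ) + 1) ^ (2 * d) := by
    rw [hS, card_product, card_posBox, ← pow_add, ← two_mul]
    push_cast
    rfl
  have hfib : ∀ c : R ⧸ Ideal.span {P}, ((S.filter (fun p => cls P α p = c)).card : ℝ) ≤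
      (1 + 2 * (Z : ℝ) / m) ^ d := by
    intro c
    set T := S.filter (fun p => cls P α p = c) with hT
    rcases T.eq_empty_or_nonempty with h0 | ⟨p0, hp0⟩
    · rw [h0]
      simp only [card_empty, Nat.cast_zero]
      positivity
    · let W := LinearMap.range (spanMap b v)
      have hp0' := mem_filter.1 hp0
      have hp0'' := mem_product.1 hp0'.1
      have hmem : ∀ p ∈ T, emb2 b (p - p0) ∈ W := by
        intro p hp
        have hp' := mem_filter.1 hp
        have hp'' := mem_product.1 hp'.1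
        apply mem_range_spanMap b hv
        apply hpar
        · have := cls_eq_iff.1 (hp'.2.trans hp0'.2.symm)
          exact this
        · exact nn_sub_le_of_posBox b hp''.1 hp0''.1
        · exact nn_sub_le_of_posBox b hp''.2 hp0''.2
      let F : {p // p ∈ T} → W := fun p => ⟨emb2 b (p.1 - p0), hmem p.1 p.2⟩
      have hsep : ∀ p q : {p // p ∈ T}, p ≠ q → (m : ℝ) ≤ ‖F p - F q‖ := by
        intro p q hpq
        have h1 : ‖F p - F q‖ = ‖emb2 b (p.1 - q.1)‖ := by
          show ‖emb2 b (p.1 - p0) - emb2 b (q.1 - p0)‖ = _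
          rw [← emb2_sub]
          congr 2
          abel
        rw [h1]
        apply le_norm_emb2
        have hp' := mem_filter.1 p.2
        have hq' := mem_filter.1 q.2
        apply minNorm_le b (f := p.1.1 - q.1.1) (g := p.1.2 - q.1.2)
        · by_contra hcon
          push Not at hcon
          exact hpq (Subtype.ext (Prod.ext (sub_eq_zero.1 hcon.1) (sub_eq_zero.1 hcon.2)))
        · exact cls_eq_iff.1 (hp'.2.trans hq'.2.symm)
        · exact le_max_left _ _
        · exact le_max_right _ _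
      have hinj : Function.Injective F := by
        intro p q hpq
        by_contra hne
        have := hsep p q hne
        rw [hpq, sub_self, norm_zero] at this
        linarith
      have hbound := card_le_of_separated (univ.map ⟨F, hinj⟩) (Z : ℝ) (m : ℝ) hm0
        (Nat.cast_nonneg _)
        (by
          intro c hc
          obtain ⟨p, -, rfl⟩ := mem_map.1 hc
          show ‖emb2 b (p.1 - p0)‖ ≤ Z
          rw [norm_emb2_le_iff]
          have hp' := mem_filter.1 p.2
          have hp'' := mem_product.1 hp'.1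
          exact ⟨nn_sub_le_of_posBox b hp''.1 hp0''.1, nn_sub_le_of_posBox b hp''.2 hp0''.2⟩)
        (by
          intro c hc e he hce
          obtain ⟨p, -, rfl⟩ := mem_map.1 hc
          obtain ⟨q, -, rfl⟩ := mem_map.1 he
          exact hsep p q (fun h => hce (by rw [h])))
      rw [card_map, card_univ, Fintype.card_coe] at hbound
      refine hbound.trans ?_
      apply pow_le_pow_right₀
      · have : 0 ≤ 2 * (Z : ℝ) / m := by positivity
        linarith
      · have := LinearMap.finrank_range_le (spanMap b v)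
        simpa using this
  rw [← hScard]
  have h1 : S.card = ∑ c : R ⧸ Ideal.span {P}, (S.filter (fun p => cls P α p = c)).card :=
    card_eq_sum_card_fiberwise (fun _ _ => mem_coe.2 (mem_univ _))
  rw [h1]
  push_cast
  calc ∑ c : R ⧸ Ideal.span {P}, ((S.filter (fun p => cls P α p = c)).card : ℝ)
      ≤ ∑ _c : R ⧸ Ideal.span {P}, (1 + 2 * (Z : ℝ) / m) ^ d := sum_le_sum fun c _ => hfib c
    _ = _ := by
      rw [sum_const, card_univ, nsmul_eq_mul]

/-- Reduction of `(α, 1)` modulo `k` times the lattice spanned by two vectors. -/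
theorem exists_reduced (P α : R) (k : ℕ) (hk : 0 < k) {f₁ g₁ f₂ g₂ : R}
    (h1 : P ∣ g₁ * α - f₁) (h2 : P ∣ g₂ * α - f₂) (hdet : f₁ * g₂ - f₂ * g₁ ≠ 0) (B : ℕ)
    (hf1 : nn b f₁ ≤ B) (hg1 : nn b g₁ ≤ B) (hf2 : nn b f₂ ≤ B) (hg2 : nn b g₂ ≤ B) :
    ∃ f g h : R, P ∣ g * α - f ∧ g = 1 - k * h ∧ nn b f ≤ 2 * mulC b * k * B ∧
      nn b g ≤ 2 * mulC b * k * B := by
  obtain ⟨D, r, hD, hr⟩ := exists_int_multiple b hdet
  have hkD : (k : ℤ) * D ≠ 0 := mul_ne_zero (by exact_mod_cast hk.ne') hD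
  obtain ⟨q, ρ, hq, hρ⟩ := exists_divMod b (r * (α * g₂ - f₂ * 1)) ((k : ℤ) * D) hkD
  obtain ⟨q', σ, hq', hσ⟩ := exists_divMod b (r * (f₁ * 1 - α * g₁)) ((k : ℤ) * D) hkD
  rw [zsmul_eq_mul] at hq hq'
  push_cast at hq hq'
  have hDR : (D : R) = r * (f₁ * g₂ - f₂ * g₁) := hr.symm
  have hf : D • (α - k * (q * f₁ + q' * f₂)) = ρ * f₁ + σ * f₂ := by
    rw [zsmul_eq_mul]
    have e1 : (D : R) * α = r * (α * g₂ - f₂ * 1) * f₁ + r * (f₁ * 1 - α * g₁) * f₂ := by
      rw [hDR]
      ring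
    rw [mul_sub, e1, hq, hq']
    ring
  have hg : D • (1 - k * (q * g₁ + q' * g₂)) = ρ * g₁ + σ * g₂ := by
    rw [zsmul_eq_mul]
    have e1 : (D : R) * 1 = r * (α * g₂ - f₂ * 1) * g₁ + r * (f₁ * 1 - α * g₁) * g₂ := by
      rw [hDR]
      ring
    rw [mul_sub, e1, hq, hq']
    ring
  have hkD' : ((k : ℤ) * D).natAbs = k * D.natAbs := by
    rw [Int.natAbs_mul, Int.natAbs_natCast]
  rw [hkD'] at hρ hσ
  have key : ∀ x y z : R, D • z = ρ * x + σ * y → nn b x ≤ B → nn b y ≤ B →
      nn b z ≤ 2 * mulC b * k * B := by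
    intro x y z hz hx hy
    have h3 : D.natAbs * nn b z ≤ D.natAbs * (2 * mulC b * k * B) := by
      rw [← nn_zsmul, hz]
      calc nn b (ρ * x + σ * y) ≤ nn b (ρ * x) + nn b (σ * y) := nn_add_le b _ _
        _ ≤ mulC b * nn b ρ * nn b x + mulC b * nn b σ * nn b y :=
          add_le_add (nn_mul_le b _ _) (nn_mul_le b _ _)
        _ ≤ mulC b * (k * D.natAbs) * B + mulC b * (k * D.natAbs) * B := by gcongr
        _ = D.natAbs * (2 * mulC b * k * B) := by ring
    exact Nat.le_of_mul_le_mul_left h3 (Int.natAbs_pos.2 hD)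
  refine ⟨α - k * (q * f₁ + q' * f₂), 1 - k * (q * g₁ + q' * g₂), q * g₁ + q' * g₂, ?_, rfl,
    key _ _ _ hf hf1 hf2, key _ _ _ hg hg1 hg2⟩
  have h3 : (1 - k * (q * g₁ + q' * g₂)) * α - (α - k * (q * f₁ + q' * f₂)) =
      -(k * q) * (g₁ * α - f₁) + -(k * q') * (g₂ * α - f₂) := by ring
  rw [h3]
  exact dvd_add (Dvd.dvd.mul_left h1 _) (Dvd.dvd.mul_left h2 _)

end Pool.Agent.W964.PiAdic
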