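import Pool.Agent.W964.PiAdic.Count
import Pool.Agent.W964.PiAdic.Digits

/-!
# The average `π`-adic complexity of finite sequences is `n / 2 + O(1)`
-/

set_option autoImplicit false

open Finset Module

namespace Pool.Agent.W964.PiAdic

theorem exists_root (k M : ℕ) (hk : 0 < k) : ∃ Y : ℕ, Y ^ k ≤ M ∧ M < (Y + 1) ^ k := by
  classical
  have h : ∃ y : ℕ, M < (y + 1) ^ k :=
    ⟨M, lt_of_lt_of_le (Nat.lt_succ_self M) (Nat.le_self_pow hk.ne' _)⟩
  refine ⟨Nat.find h, ?_, Nat.find_spec h⟩
  rcases Nat.eq_zero_or_pos (Nat.find h) with h0 | h0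
  · rw [h0, zero_pow hk.ne']
    exact Nat.zero_le _
  · have h1 := Nat.find_min h (m := Nat.find h - 1) (by omega)
    rw [Nat.sub_add_cancel h0] at h1
    omega

variable {R : Type*} [CommRing R] [IsDomain R] {d : ℕ} (b : Basis (Fin d) ℤ R) {π : R}
  (hb : ∀ i, b i = π ^ (i : ℕ)) {c : ℤ} (hπ : π ^ d = (c : R)) {N : ℕ} (hN : 2 ≤ N)
  (hc : c.natAbs = N) {φ : R → ℝ} (hφ0 : φ 0 = 0) {K : ℝ}
  (hφ : ∀ x : R, x ≠ 0 → |φ x - d * Real.logb N (nn b x)| ≤ K)

include b hb hπ hN hc in
theorem ne_zero_of_coprime {g : R} (hg : IsCoprime g π) : g ≠ 0 := by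
  rintro rfl
  rw [isCoprime_zero_left] at hg
  have h1 : π ∣ ((1 : ℤ) : R) := hg.dvd
  have h2 := dvd_of_pi_dvd b hb hπ h1
  have h3 := Int.natAbs_dvd_natAbs.2 h2
  rw [hc] at h3
  simp at h3
  omega

omit [IsDomain R] in
include hN in
theorem logb_nn_nonneg (x : R) : 0 ≤ Real.logb N (nn b x) := by
  rcases Nat.eq_zero_or_pos (nn b x) with h | h
  · rw [h]
    simp
  · exact Real.logb_nonneg (by exact_mod_cast (by omega : 1 < N)) (by exact_mod_cast h)

include hb hπ hN hc hφ in
theorem bddBelow_set {n : ℕ} (w : Fin n → Fin N) :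
    BddBelow {x : ℝ | ∃ (a : ℕ → Fin N) (f g : R), (∀ i : Fin n, a i = w i) ∧ IsOutput π a f g ∧
    x = max (φ f) (φ g)} := by
  refine ⟨-K, ?_⟩
  rintro x ⟨a, f, g, -, hout, rfl⟩
  have hg := ne_zero_of_coprime b hb hπ hN hc hout.1
  have h1 := (abs_le.1 (hφ g hg)).1
  have h2 := logb_nn_nonneg b hN g
  have h3 : 0 ≤ (d : ℝ) * Real.logb N (nn b g) := by positivity
  exact le_max_of_le_right (by linarith)

include hb hπ hN hc hφ in
theorem complexity_le {n : ℕ} (w : Fin n → Fin N) {f g : R} (hg : IsCoprime g π)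
    (hd : π ^ n ∣ g * wordValue π w - f) : complexity π φ w ≤ max (φ f) (φ g) := by
  obtain ⟨a, ha, hout⟩ := exists_extension b hb hπ (by omega) hc w hg hd
  exact csInf_le (bddBelow_set b hb hπ hN hc hφ w) ⟨a, f, g, ha, hout, rfl⟩

include hb hπ hN hc hφ in
/-- The lower bound. -/
theorem lower {n : ℕ} (w : Fin n → Fin N) :
    d * Real.logb N (minNorm b (π ^ n) (wordValue π w)) - K ≤ complexity π φ w := by
  have hN1 : (1 : ℝ) < N := by exact_mod_cast (by omega : 1 < N)
  apply le_csInf
  · obtain ⟨a, ha, hout⟩ := exists_extension b hb hπ (by omega) hc w (f := wordValue π w) (g := 1)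
      isCoprime_one_left (by simp)
    exact ⟨_, a, _, _, ha, hout, rfl⟩
  · rintro x ⟨a, f, g, ha, hout, rfl⟩
    have hg := ne_zero_of_coprime b hb hπ hN hc hout.1
    have hL : π ^ n ∣ g * wordValue π w - f := by
      rw [← prefixValue_eq_wordValue a w ha]
      exact hout.2 n
    have hm0 := minNorm_pos b (π ^ n) (wordValue π w)
    have h1 : minNorm b (π ^ n) (wordValue π w) ≤ max (nn b f) (nn b g) :=
      minNorm_le b (Or.inr hg) hL (le_max_left _ _) (le_max_right _ _)
    have key : ∀ y : R, minNorm b (π ^ n) (wordValue π w) ≤ nn b y →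
        d * Real.logb N (minNorm b (π ^ n) (wordValue π w)) - K ≤ φ y := by
      intro y hy
      have hy0 : y ≠ 0 := by
        rintro rfl
        rw [nn_zero] at hy
        omega
      have h2 := (abs_le.1 (hφ y hy0)).1
      have h3 : Real.logb N (minNorm b (π ^ n) (wordValue π w)) ≤ Real.logb N (nn b y) :=
        Real.logb_le_logb_of_le hN1 (by exact_mod_cast hm0) (by exact_mod_cast hy)
      have h4 : (d : ℝ) * Real.logb N (minNorm b (π ^ n) (wordValue π w)) ≤
        d * Real.logb N (nn b y) := by gcongr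
      linarith
    rcases le_max_iff.1 h1 with h | h
    · exact le_max_of_le_left (key f h)
    · exact le_max_of_le_right (key g h)

include hb hπ hN hc hφ hφ0 in
/-- The upper bound. -/
theorem upper {n : ℕ} (w : Fin n → Fin N) :
    complexity π φ w ≤ d * Real.logb N (8 * mulC b * N) + n -
      d * Real.logb N (minNorm b (π ^ n) (wordValue π w)) + K := by
  have hN1 : (1 : ℝ) < N := by exact_mod_cast (by omega : 1 < N)
  have hN0 : (0 : ℝ) < N := by linarith
  have hd := dim_pos b
  have hd' : (d : ℝ) ≠ 0 := by exact_mod_cast hd.ne'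
  obtain ⟨hfin, hcard⟩ := card_quotient b hb hπ (by omega) hc n
  obtain ⟨f, g, h, hL, hg, hnf, hng⟩ := exists_good b (π ^ n) (wordValue π w) N (by omega)
  rw [hcard] at hnf hng
  have hm0 := minNorm_pos b (π ^ n) (wordValue π w)
  set m := minNorm b (π ^ n) (wordValue π w) with hm
  have hmR : (0 : ℝ) < m := by exact_mod_cast hm0
  have hC : (0 : ℝ) < 8 * mulC b * N := by
    have : (0 : ℝ) < mulC b := by exact_mod_cast mulC_pos b
    positivity
  have hcop : IsCoprime g π := by
    obtain ⟨y, hy⟩ := pi_dvd_natCast b hπ hc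
    refine ⟨1, y * h, ?_⟩
    rw [hg, hy]
    ring
  have hg0 := ne_zero_of_coprime b hb hπ hN hc hcop
  have key : ∀ y : R, y ≠ 0 → (nn b y : ℝ) * m ≤
      8 * mulC b * N * ((N ^ n : ℕ) : ℝ) ^ (1 / (d : ℝ)) →
      φ y ≤ d * Real.logb N (8 * mulC b * N) + n - d * Real.logb N m + K := by
    intro y hy0 hy
    have hny : (0 : ℝ) < nn b y := by exact_mod_cast nn_pos b hy0
    have h1 := Real.logb_le_logb_of_le hN1 (by positivity) hy
    have h2 : Real.logb N (((N ^ n : ℕ) : ℝ) ^ (1 / (d : ℝ))) = n / d := by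
      push_cast
      rw [Real.logb_rpow_eq_mul_logb_of_pos (by positivity), Real.logb_pow,
        Real.logb_self_eq_one hN1]
      ring
    rw [Real.logb_mul hny.ne' hmR.ne', Real.logb_mul hC.ne' (by positivity), h2] at h1
    have h3 := (abs_le.1 (hφ y hy0)).2
    have h4 : (d : ℝ) * (Real.logb N (nn b y) + Real.logb N m) ≤
        d * (Real.logb N (8 * mulC b * N) + n / d) := by gcongr
    have h5 : (d : ℝ) * (Real.logb N (8 * mulC b * N) + n / d) =
        d * Real.logb N (8 * mulC b * N) + n := by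
      field_simp
    linarith
  refine (complexity_le b hb hπ hN hc hφ w hcop hL).trans ?_
  apply max_le
  · by_cases hf0 : f = 0
    · rw [hf0, hφ0]
      have h1 := (abs_le.1 (hφ g hg0)).1
      have h2 := key g hg0 hng
      have h3 : 0 ≤ (d : ℝ) * Real.logb N (nn b g) := by
        have := logb_nn_nonneg b hN g
        positivity
      -- the value at `g` bounds zero up to `K`
      have h4 : (nn b g : ℝ) * m ≤ 8 * mulC b * N * ((N ^ n : ℕ) : ℝ) ^ (1 / (d : ℝ)) := hng
      have hny : (0 : ℝ) < nn b g := by exact_mod_cast nn_pos b hg0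
      have h5 := Real.logb_le_logb_of_le hN1 (by positivity) h4
      have h6 : Real.logb N (((N ^ n : ℕ) : ℝ) ^ (1 / (d : ℝ))) = n / d := by
        push_cast
        rw [Real.logb_rpow_eq_mul_logb_of_pos (by positivity), Real.logb_pow,
          Real.logb_self_eq_one hN1]
        ring
      rw [Real.logb_mul hny.ne' hmR.ne', Real.logb_mul hC.ne' (by positivity), h6] at h5
      have h7 : (d : ℝ) * (Real.logb N (nn b g) + Real.logb N m) ≤
          d * (Real.logb N (8 * mulC b * N) + n / d) := by gcongr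
      have h8 : (d : ℝ) * (Real.logb N (8 * mulC b * N) + n / d) =
          d * Real.logb N (8 * mulC b * N) + n := by
        field_simp
      linarith
    · exact key f hf0 hnf
  · exact key g hg0 hng

include hπ hN hc in
/-- The defect of the shortest vector. -/
theorem defect_le (n : ℕ) (Y : ℕ) (hY : N ^ n < (Y + 1) ^ (2 * d)) (α : R) :
    (n : ℝ) / 2 - d * Real.logb N (minNorm b (π ^ n) α) ≤
      (pts b (π ^ n) α Y).card + (d * Real.logb N (mulC b) + d) := by
  have hN1 : (1 : ℝ) < N := by exact_mod_cast (by omega : 1 < N)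
  have hN0 : (0 : ℝ) < N := by linarith
  have hd := dim_pos b
  obtain ⟨f₁, g₁, hv, hL, hf1, hg1⟩ := minNorm_spec b (π ^ n) α
  have hm0 := minNorm_pos b (π ^ n) α
  set m := minNorm b (π ^ n) α with hm
  have hmR : (0 : ℝ) < m := by exact_mod_cast hm0
  have hC0 : (0 : ℝ) < mulC b := by exact_mod_cast mulC_pos b
  have hC1 : 0 ≤ Real.logb N (mulC b) :=
    Real.logb_nonneg hN1 (by exact_mod_cast mulC_pos b)
  by_cases hg0 : g₁ = 0
  · have hf0 : f₁ ≠ 0 := by
      rcases hv with h | h
      · exact h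
      · exact absurd hg0 h
    rw [hg0, zero_mul, zero_sub, dvd_neg] at hL
    obtain ⟨k, hk⟩ := hL
    have hk0 : k ≠ 0 := by
      rintro rfl
      rw [mul_zero] at hk
      exact hf0 hk
    have h1 := pow_le_nn b hπ (by omega) hc n hk0
    rw [← hk] at h1
    have h2 : N ^ n ≤ (m * N) ^ d := by
      calc N ^ n ≤ N ^ ((n / d + 1) * d) := by
            apply Nat.pow_le_pow_right (by omega)
            have := Nat.lt_div_mul_add (a := n) hd
            calc n ≤ n / d * d + d := this.le
              _ = (n / d + 1) * d := by ring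
        _ = (N ^ (n / d) * N) ^ d := by rw [pow_mul, pow_succ]
        _ ≤ (m * N) ^ d := by
            apply Nat.pow_le_pow_left
            exact Nat.mul_le_mul_right _ (h1.trans hf1)
    have h3 : ((N : ℝ)) ^ n ≤ ((m : ℝ) * N) ^ d := by exact_mod_cast h2
    have h4 := Real.logb_le_logb_of_le hN1 (by positivity) h3
    rw [Real.logb_pow, Real.logb_pow, Real.logb_mul hmR.ne' hN0.ne', Real.logb_self_eq_one hN1]
      at h4
    have h5 : (0 : ℝ) ≤ n := Nat.cast_nonneg _
    have h6 : (0 : ℝ) ≤ (pts b (π ^ n) α Y).card := Nat.cast_nonneg _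
    have h7 : 0 ≤ (d : ℝ) * Real.logb N (mulC b) := by positivity
    linarith
  · have h1 := pow_le_card_pts b Y m hg0 hL hf1 hg1
    set s := (pts b (π ^ n) α Y).card with hs
    set X := Y / (mulC b * m) with hX
    have h2 : Y + 1 ≤ (X + 1) * (mulC b * m) := by
      have := Nat.lt_mul_div_succ Y (Nat.mul_pos (mulC_pos b) hm0)
      rw [← hX] at this
      calc Y + 1 ≤ mulC b * m * (X + 1) := this
        _ = (X + 1) * (mulC b * m) := by ring
    have h3 : N ^ n ≤ ((s + 1) * (mulC b * m) ^ d) ^ 2 := by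
      calc N ^ n ≤ (Y + 1) ^ (2 * d) := hY.le
        _ ≤ ((X + 1) * (mulC b * m)) ^ (2 * d) := Nat.pow_le_pow_left h2 _
        _ = ((X + 1) ^ d * (mulC b * m) ^ d) ^ 2 := by
            rw [← mul_pow, ← pow_mul, mul_comm d 2]
        _ ≤ ((s + 1) * (mulC b * m) ^ d) ^ 2 := by gcongr
    have h4 : ((N : ℝ)) ^ n ≤ (((s : ℝ) + 1) * ((mulC b : ℝ) * m) ^ d) ^ 2 := by
      exact_mod_cast h3
    have h5 := Real.logb_le_logb_of_le hN1 (by positivity) h4
    rw [Real.logb_pow, Real.logb_pow, Real.logb_mul (by positivity) (by positivity),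
      Real.logb_pow, Real.logb_mul hC0.ne' hmR.ne', Real.logb_self_eq_one hN1] at h5
    have h6 : Real.logb N ((s : ℝ) + 1) ≤ s := by
      rw [Real.logb_le_iff_le_rpow hN1 (by positivity), Real.rpow_natCast]
      have h7 : s + 1 ≤ 2 ^ s := Nat.lt_two_pow_self
      calc (s : ℝ) + 1 ≤ 2 ^ s := by exact_mod_cast h7
        _ ≤ (N : ℝ) ^ s := by
            apply pow_le_pow_left₀ (by norm_num)
            exact_mod_cast hN
    have h8 : (0 : ℝ) ≤ d := Nat.cast_nonneg _
    push_cast at h5
    linarith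

include hb hπ hN hc in
theorem sum_defect_le (n : ℕ) :
    ∑ w : Fin n → Fin N, ((n : ℝ) / 2 - d * Real.logb N (minNorm b (π ^ n) (wordValue π w))) ≤
      ((3 * (2 * mulC b + 3)) ^ d + (d * Real.logb N (mulC b) + d)) * (N : ℝ) ^ n := by
  have hd := dim_pos b
  obtain ⟨Y, hY1, hY2⟩ := exists_root (2 * d) (N ^ n) (by omega)
  have hY0 : 1 ≤ Y := by
    by_contra h
    have h0 : Y = 0 := by omega
    rw [h0] at hY2
    simp at hY2
    omega
  obtain ⟨hfin, hcard⟩ := card_quotient b hb hπ (by omega) hc n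
  have hinj : Function.Injective (fun w : Fin n → Fin N =>
      (Ideal.Quotient.mk (Ideal.span {π ^ n})) (wordValue π w)) := by
    intro w w' h
    rw [Ideal.Quotient.eq, Ideal.mem_span_singleton] at h
    exact wordValue_injective b hb hπ hc n w w' (pi_ne_zero b hπ (by omega) hc) h
  have hpts := sum_card_pts_le b (π ^ n) (fun w : Fin n → Fin N => wordValue π w) hinj Y
  have hpts2 : (2 * Y + 1) ^ d * (2 * ((mulC b + 1) * Y) + 1) ^ d ≤
      (3 * (2 * mulC b + 3)) ^ d * N ^ n := by
    calc (2 * Y + 1) ^ d * (2 * ((mulC b + 1) * Y) + 1) ^ d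
        ≤ (3 * Y) ^ d * ((2 * mulC b + 3) * Y) ^ d := by
          gcongr
          · omega
          · nlinarith
      _ = (3 * (2 * mulC b + 3)) ^ d * Y ^ (2 * d) := by
          rw [← mul_pow, two_mul d, pow_add, ← mul_pow, ← mul_pow]
          congr 1
          ring
      _ ≤ (3 * (2 * mulC b + 3)) ^ d * N ^ n := Nat.mul_le_mul_left _ hY1
  have h1 : ((∑ w : Fin n → Fin N, (pts b (π ^ n) (wordValue π w) Y).card : ℕ) : ℝ) ≤
      (3 * (2 * (mulC b : ℝ) + 3)) ^ d * (N : ℝ) ^ n := by
    exact_mod_cast hpts.trans hpts2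
  calc ∑ w : Fin n → Fin N, ((n : ℝ) / 2 - d * Real.logb N (minNorm b (π ^ n) (wordValue π w)))
      ≤ ∑ w : Fin n → Fin N, (((pts b (π ^ n) (wordValue π w) Y).card : ℝ) +
        (d * Real.logb N (mulC b) + d)) :=
        sum_le_sum fun w _ => defect_le b hπ hN hc n Y hY2 _
    _ = ((∑ w : Fin n → Fin N, (pts b (π ^ n) (wordValue π w) Y).card : ℕ) : ℝ) +
        (d * Real.logb N (mulC b) + d) * (N : ℝ) ^ n := by
        rw [sum_add_distrib, sum_const, card_univ, nsmul_eq_mul]
        simp only [Fintype.card_fun, Fintype.card_fin, Nat.cast_pow]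
        push_cast
        ring
    _ ≤ _ := by
        rw [add_mul ((3 * (2 * (mulC b : ℝ) + 3)) ^ d)]
        linarith

include hb hπ hN hc hφ hφ0 in
/-- **The general theorem.** -/
theorem abs_average_sub_le : ∃ C : ℝ, ∀ n : ℕ, |average π φ N n - (n : ℝ) / 2| ≤ C := by
  have hN0 : (0 : ℝ) < N := by exact_mod_cast (by omega : 0 < N)
  obtain ⟨A, hA⟩ : ∃ A : ℝ, A = (3 * (2 * (mulC b : ℝ) + 3)) ^ d +
    (d * Real.logb N (mulC b) + d) := ⟨_, rfl⟩
  obtain ⟨B, hB⟩ : ∃ B : ℝ, B = d * Real.logb N (8 * mulC b * N) := ⟨_, rfl⟩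
  have hmain : ∀ n : ℕ, (n : ℝ) / 2 - (A + K) ≤ average π φ N n ∧
      average π φ N n ≤ (n : ℝ) / 2 + (A + B + K) := by
    intro n
    have hsum := sum_defect_le b hb hπ hN hc n
    rw [← hA] at hsum
    have hpos : (0 : ℝ) < (N : ℝ) ^ n := by positivity
    constructor
    · rw [average, le_div_iff₀ hpos]
      have h1 : ∑ w : Fin n → Fin N, ((n : ℝ) / 2 - complexity π φ w) ≤
          ∑ w : Fin n → Fin N,
            (((n : ℝ) / 2 - d * Real.logb N (minNorm b (π ^ n) (wordValue π w))) + K) :=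
        sum_le_sum fun w _ => by
          have := lower b hb hπ hN hc hφ w
          linarith
      rw [sum_add_distrib, sum_sub_distrib, sum_const, sum_const, card_univ, nsmul_eq_mul,
        nsmul_eq_mul] at h1
      simp only [Fintype.card_fun, Fintype.card_fin, Nat.cast_pow] at h1
      nlinarith
    · rw [average, div_le_iff₀ hpos]
      have h1 : ∑ w : Fin n → Fin N, (complexity π φ w - ((n : ℝ) / 2 + B + K)) ≤
          ∑ w : Fin n → Fin N,
            ((n : ℝ) / 2 - d * Real.logb N (minNorm b (π ^ n) (wordValue π w))) :=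
        sum_le_sum fun w _ => by
          have := upper b hb hπ hN hc hφ0 hφ w
          rw [← hB] at this
          linarith
      rw [sum_sub_distrib, sum_const, card_univ, nsmul_eq_mul] at h1
      simp only [Fintype.card_fun, Fintype.card_fin, Nat.cast_pow] at h1
      nlinarith
  refine ⟨max (A + K) (A + B + K), fun n => ?_⟩
  obtain ⟨h1, h2⟩ := hmain n
  rw [abs_le]
  constructor
  · have := le_max_left (A + K) (A + B + K)
    linarith
  · have := le_max_right (A + K) (A + B + K)
    linarith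

end Pool.Agent.W964.PiAdic
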