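import Pool.Agent.W964.PiAdic.Main

/-!
# The two size functions
-/

set_option autoImplicit false

open Finset Module

namespace Pool.Agent.W964.PiAdic

variable {R : Type*} [CommRing R]

theorem exists_nn_eq {d : ℕ} (b : Basis (Fin d) ℤ R) {x : R} (hx : x ≠ 0) :
    ∃ i, nn b x = (b.repr x i).natAbs := by
  have h1 := nn_pos b hx
  have hne : Nonempty (Fin d) := by
    by_contra h
    rw [not_nonempty_iff] at h
    have : nn b x = 0 := by simp [nn]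
    omega
  obtain ⟨i, -, hi⟩ := exists_mem_eq_sup (univ : Finset (Fin d)) univ_nonempty
    (fun i : Fin d => (b.repr x i).natAbs)
  exact ⟨i, hi⟩

theorem abs_repr_le {d : ℕ} (b : Basis (Fin d) ℤ R) (x : R) (i : Fin d) :
    |(b.repr x i : ℝ)| ≤ nn b x := by
  rw [← Int.cast_abs, Int.abs_eq_natAbs, Int.cast_natCast]
  exact_mod_cast natAbs_repr_le b x i

theorem sizeQuad_zero (N : ℕ) (b : Basis (Fin 2) ℤ R) : sizeQuad N b 0 = 0 := by
  simp [sizeQuad]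

theorem sizeQuad_bound {N : ℕ} (hN : 2 ≤ N) (b : Basis (Fin 2) ℤ R) (x : R) (hx : x ≠ 0) :
    |sizeQuad N b x - (2 : ℕ) * Real.logb N (nn b x)| ≤ 2 := by
  have hN1 : (1 : ℝ) < N := by exact_mod_cast (by omega : 1 < N)
  have hN2 : (2 : ℝ) ≤ N := by exact_mod_cast hN
  have hn : (0 : ℝ) < nn b x := by exact_mod_cast nn_pos b hx
  have h0 := abs_repr_le b x 0
  have h1 := abs_repr_le b x 1
  have h0' : (b.repr x 0 : ℝ) ^ 2 ≤ (nn b x : ℝ) ^ 2 := sq_le_sq' (abs_le.1 h0).1 (abs_le.1 h0).2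
  have h1' : (b.repr x 1 : ℝ) ^ 2 ≤ (nn b x : ℝ) ^ 2 := sq_le_sq' (abs_le.1 h1).1 (abs_le.1 h1).2
  have hlow : (nn b x : ℝ) ^ 2 ≤ (b.repr x 0 : ℝ) ^ 2 + N * (b.repr x 1 : ℝ) ^ 2 := by
    obtain ⟨i, hi⟩ := exists_nn_eq b hx
    have h2 : (nn b x : ℝ) ^ 2 = (b.repr x i : ℝ) ^ 2 := by
      rw [hi, ← sq_abs (b.repr x i : ℝ), ← Int.cast_abs, Int.abs_eq_natAbs, Int.cast_natCast]
    have h3 : i = 0 ∨ i = 1 := by
      fin_cases i
      · left; rfl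
      · right; rfl
    rcases h3 with rfl | rfl
    · rw [h2]
      have : 0 ≤ (N : ℝ) * (b.repr x 1 : ℝ) ^ 2 := by positivity
      linarith
    · rw [h2]
      nlinarith [sq_nonneg (b.repr x 0 : ℝ), sq_nonneg (b.repr x 1 : ℝ)]
  have hup : (b.repr x 0 : ℝ) ^ 2 + N * (b.repr x 1 : ℝ) ^ 2 ≤ (N : ℝ) ^ 2 * (nn b x : ℝ) ^ 2 := by
    calc (b.repr x 0 : ℝ) ^ 2 + N * (b.repr x 1 : ℝ) ^ 2
        ≤ (nn b x : ℝ) ^ 2 + N * (nn b x : ℝ) ^ 2 := by gcongr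
      _ = (1 + (N : ℝ)) * (nn b x : ℝ) ^ 2 := by ring
      _ ≤ (N : ℝ) ^ 2 * (nn b x : ℝ) ^ 2 := by
          gcongr
          nlinarith
  have h4 := Real.logb_le_logb_of_le hN1 (by positivity) hlow
  have h5 := Real.logb_le_logb_of_le hN1 (lt_of_lt_of_le (by positivity) hlow) hup
  rw [Real.logb_pow] at h4
  rw [Real.logb_mul (by positivity) (by positivity), Real.logb_pow, Real.logb_pow,
    Real.logb_self_eq_one hN1] at h5
  rw [sizeQuad, abs_le]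
  push_cast at h4 h5 ⊢
  constructor <;> linarith

theorem sizeRoot_zero (N : ℕ) {d : ℕ} (b : Basis (Fin d) ℤ R) : sizeRoot N b 0 = 0 := by
  have : {y : ℝ | ∃ i : Fin d, b.repr (0 : R) i ≠ 0 ∧
      y = d * Real.logb N |(b.repr (0 : R) i : ℝ)| + (i : ℕ)} = ∅ := by
    ext y
    simp
  rw [sizeRoot, this, Real.sSup_empty]

theorem sizeRoot_bound {N : ℕ} (hN : 2 ≤ N) {d : ℕ} (b : Basis (Fin d) ℤ R) (x : R) (hx : x ≠ 0) :
    |sizeRoot N b x - d * Real.logb N (nn b x)| ≤ d := by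
  have hN1 : (1 : ℝ) < N := by exact_mod_cast (by omega : 1 < N)
  have hn : (0 : ℝ) < nn b x := by exact_mod_cast nn_pos b hx
  obtain ⟨i, hi⟩ := exists_nn_eq b hx
  have hiR : |(b.repr x i : ℝ)| = nn b x := by
    rw [hi, ← Int.cast_abs, Int.abs_eq_natAbs, Int.cast_natCast]
  have hi0 : b.repr x i ≠ 0 := by
    intro h
    rw [h] at hiR
    simp at hiR
    linarith
  have hub : ∀ y ∈ {y : ℝ | ∃ i : Fin d, b.repr x i ≠ 0 ∧
      y = d * Real.logb N |(b.repr x i : ℝ)| + (i : ℕ)}, y ≤ d * Real.logb N (nn b x) + d := by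
    rintro y ⟨j, hj, rfl⟩
    have hjpos : 0 < |(b.repr x j : ℝ)| := abs_pos.2 (by exact_mod_cast hj)
    have h1 := Real.logb_le_logb_of_le hN1 hjpos (abs_repr_le b x j)
    have h2 : (d : ℝ) * Real.logb N |(b.repr x j : ℝ)| ≤ d * Real.logb N (nn b x) := by gcongr
    have h3 : ((j : ℕ) : ℝ) ≤ d := by exact_mod_cast j.isLt.le
    linarith
  have hlow : d * Real.logb N (nn b x) + (i : ℕ) ≤ sizeRoot N b x := by
    apply le_csSup ⟨_, hub⟩
    exact ⟨i, hi0, by rw [hiR]⟩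
  have hup : sizeRoot N b x ≤ d * Real.logb N (nn b x) + d := by
    refine csSup_le ⟨d * Real.logb N |(b.repr x i : ℝ)| + (i : ℕ), ⟨i, hi0, rfl⟩⟩ hub
  have h4 : (0 : ℝ) ≤ (i : ℕ) := Nat.cast_nonneg _
  have h5 : (0 : ℝ) ≤ d := Nat.cast_nonneg _
  rw [abs_le]
  constructor <;> linarith

end Pool.Agent.W964.PiAdic
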